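import Pool.Agent.L5helper39.AD.Sidon

/-!
# The construction of the sequence
-/

set_option autoImplicit false
set_option linter.all false

open Cardinal

universe u

namespace Pool.Agent.L5helper39.AD

variable {G : Type u} [Group G]

open Classical in
/-- one step of the recursion -/
noncomputable def pick {ι : Type u} (Y : Set G) (y : ι → G) (ys : G) (μ : Cardinal.{u})
    (S : Set G) : G :=
  if h : ∃ g, Next Y y ys μ S g then h.choose else 1

theorem pick_spec {ι : Type u} (Y : Set G) (y : ι → G) (ys : G) (μ : Cardinal.{u}) (S : Set G)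
    (h : ∃ g, Next Y y ys μ S g) : Next Y y ys μ S (pick Y y ys μ S) := by
  rw [pick, dif_pos h]
  exact h.choose_spec

/-- The sequence. `T` is a well-ordered index set, `m` the cardinal used at a stage. -/
theorem exists_seq {ι T : Type u} [LinearOrder T] [WellFoundedLT T] (Y : Set G)
    (c : ι → Cardinal.{u}) (ys : Cardinal.{u} → G) (k : T → ι)
    (hinf : ∀ i, ℵ₀ ≤ c i) (hι : ∀ i, #ι ≤ c i) (hmono : ∀ a b, a ≤ b → c (k a) ≤ c (k b))
    (hcard : ∀ a : T, #(Set.Iio a) ≤ c (k a)) (hys : ∀ i, ys (c i) ∈ Y ∧ ys (c i) ∉ M Y (c i)) :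
    ∃ h : T → G, ∀ a, Next Y (fun i => ys (c i)) (ys (c (k a))) (c (k a))
      (h '' Set.Iio a) (h a) := by
  let F : (a : T) → ((b : T) → b < a → G) → G := fun a prev =>
    pick Y (fun i => ys (c i)) (ys (c (k a))) (c (k a)) {g | ∃ b, ∃ hb : b < a, prev b hb = g}
  let h : T → G := WellFounded.fix (wellFounded_lt (α := T)) F
  have hh : ∀ a, h a = pick Y (fun i => ys (c i)) (ys (c (k a))) (c (k a)) (h '' Set.Iio a) := by
    intro a
    have h1 : h a = F a fun b _ => h b := WellFounded.fix_eq _ _ _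
    rw [h1]
    simp only [F]
    congr 1
    ext g
    constructor
    · rintro ⟨b, hb, rfl⟩
      exact ⟨b, hb, rfl⟩
    · rintro ⟨b, hb, rfl⟩
      exact ⟨b, hb, rfl⟩
  refine ⟨h, fun a => ?_⟩
  induction a using WellFoundedLT.induction with
  | ind a ih =>
    rw [hh a]
    apply pick_spec
    apply exists_next Y _ _ _ _ (hys (k a)).1 (hys (k a)).2
    · rintro _ ⟨b, hb, rfl⟩
      exact M_mono Y (hmono b a (le_of_lt hb)) (ih b hb).2.1
    · apply card_Nb _ _ _ (hinf _) (hι _)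
      exact mk_image_le.trans (hcard a)

/-- The conclusion for the sequence. -/
theorem seq_good {ι T : Type u} [LinearOrder T] [WellFoundedLT T] (Y : Set G)
    (c : ι → Cardinal.{u}) (ys : Cardinal.{u} → G) (k : T → ι) (h : T → G)
    (hN : ∀ a, Next Y (fun i => ys (c i)) (ys (c (k a))) (c (k a)) (h '' Set.Iio a) (h a)) :
    Function.Injective h ∧ (∀ a, h a ∈ Y) ∧
    (∀ x ∈ Set.range h, ∀ y ∈ Set.range h, ∀ z ∈ Set.range h, ∀ w ∈ Set.range h,
      x⁻¹ * y = z⁻¹ * w → (x = z ∧ y = w) ∨ (x = y ∧ z = w) ∨ (x = w ∧ y = z)) ∧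
    (∀ x ∈ Set.range h, ∀ y ∈ Set.range h, ∀ z ∈ Set.range h, ∀ w ∈ Set.range h,
      x * y = z * w → (x = z ∧ y = w) ∨ (x = y ∧ z = w) ∨ (x = w ∧ y = z)) := by
  have hlt : ∀ a b, a < b → h a ≠ h b := by
    intro a b hab he
    exact (hN b).2.2.1 (Or.inl ⟨a, hab, he⟩)
  have hinj : Function.Injective h := by
    intro a b he
    rcases lt_trichotomy a b with hab | hab | hab
    · exact absurd he (hlt a b hab)
    · exact hab
    · exact absurd he.symm (hlt b a hab)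
  -- relations with the largest element are impossible
  have hD : ∀ a, ∀ e, ∀ x ∈ h '' Set.Iio a, ∀ w ∈ h '' Set.Iio a, rel e (h a) x w → x = w := by
    intro a e x hx w hw hr
    by_contra hne
    obtain ⟨b, hb, rfl⟩ := hx
    obtain ⟨d, hd, rfl⟩ := hw
    rw [(hN a).2.2.2 e _ ⟨b, hb, rfl⟩ _ ⟨d, hd, rfl⟩] at hr
    set v : G := ys (c (k a)) with hv
    rcases lt_trichotomy b d with hbd | hbd | hbd
    · apply (hN d).2.2.1
      have hm : h b ∈ h '' Set.Iio d := ⟨b, hbd, rfl⟩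
      fin_cases e
      · exact Or.inr (Or.inr (Or.inr (Or.inr (Or.inl ⟨(k a, ⟨h b, hm⟩), hr⟩))))
      · exact Or.inr (Or.inr (Or.inr (Or.inr (Or.inr (Or.inl ⟨(k a, ⟨h b, hm⟩), hr⟩)))))
      · refine Or.inr (Or.inr (Or.inr (Or.inr (Or.inr (Or.inr (Or.inr (Or.inl
          ⟨(k a, ⟨h b, hm⟩), ?_⟩)))))))
        have hr' : v * v = h b * h d := hr
        show (h b)⁻¹ * (v * v) = h d
        rw [hr', inv_mul_cancel_left]
    · exact hne (by rw [hbd])
    · apply (hN b).2.2.1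
      have hm : h d ∈ h '' Set.Iio b := ⟨d, hbd, rfl⟩
      fin_cases e
      · refine Or.inr (Or.inr (Or.inr (Or.inr (Or.inl ⟨(k a, ⟨h d, hm⟩), ?_⟩))))
        have hr' : v * (h b)⁻¹ * v = h d := hr
        show v * (h d)⁻¹ * v = h b
        rw [← hr']; group
      · refine Or.inr (Or.inr (Or.inr (Or.inr (Or.inr (Or.inr (Or.inl
          ⟨(k a, ⟨h d, hm⟩), ?_⟩))))))
        have hr' : v * h b * v⁻¹ = h d := hr
        show v⁻¹ * h d * v = h b
        rw [← hr']; group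
      · refine Or.inr (Or.inr (Or.inr (Or.inr (Or.inr (Or.inr (Or.inr (Or.inr
          ⟨(k a, ⟨h d, hm⟩), ?_⟩)))))))
        have hr' : v * v = h b * h d := hr
        show v * v * (h d)⁻¹ = h b
        rw [hr', mul_inv_cancel_right]
  have hA0 : ∀ a, ∀ p ∈ h '' Set.Iio a, ∀ q ∈ h '' Set.Iio a, ∀ r ∈ h '' Set.Iio a,
      h a ≠ p * q⁻¹ * r := by
    intro a p hp q hq r hr he
    exact (hN a).2.2.1 (Or.inr (Or.inl ⟨(⟨p, hp⟩, ⟨q, hq⟩, ⟨r, hr⟩), he.symm⟩))
  have hA1 : ∀ a, ∀ p ∈ h '' Set.Iio a, ∀ q ∈ h '' Set.Iio a, ∀ r ∈ h '' Set.Iio a,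
      h a ≠ p * q * r⁻¹ := by
    intro a p hp q hq r hr he
    exact (hN a).2.2.1 (Or.inr (Or.inr (Or.inl ⟨(⟨p, hp⟩, ⟨q, hq⟩, ⟨r, hr⟩), he.symm⟩)))
  have hA2 : ∀ a, ∀ p ∈ h '' Set.Iio a, ∀ q ∈ h '' Set.Iio a, ∀ r ∈ h '' Set.Iio a,
      h a ≠ p⁻¹ * q * r := by
    intro a p hp q hq r hr he
    exact (hN a).2.2.1 (Or.inr (Or.inr (Or.inr (Or.inl ⟨(⟨p, hp⟩, ⟨q, hq⟩, ⟨r, hr⟩), he.symm⟩))))
  -- four elements lie in an initial segment with a largest element
  have hmax : ∀ a1 a2 a3 a4 : T, ∃ a : T, (a = a1 ∨ a = a2 ∨ a = a3 ∨ a = a4) ∧ a1 ≤ a ∧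
      a2 ≤ a ∧ a3 ≤ a ∧ a4 ≤ a := by
    intro a1 a2 a3 a4
    refine ⟨max (max a1 a2) (max a3 a4), ?_, ?_, ?_, ?_, ?_⟩
    · rcases max_choice (max a1 a2) (max a3 a4) with h1 | h1
      · rcases max_choice a1 a2 with h2 | h2
        · exact Or.inl (h1.trans h2)
        · exact Or.inr (Or.inl (h1.trans h2))
      · rcases max_choice a3 a4 with h2 | h2
        · exact Or.inr (Or.inr (Or.inl (h1.trans h2)))
        · exact Or.inr (Or.inr (Or.inr (h1.trans h2)))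
    · exact (le_max_left _ _).trans (le_max_left _ _)
    · exact (le_max_right _ _).trans (le_max_left _ _)
    · exact (le_max_left _ _).trans (le_max_right _ _)
    · exact (le_max_right _ _).trans (le_max_right _ _)
  have hmem : ∀ a b : T, b ≤ a → h b = h a ∨ h b ∈ h '' Set.Iio a := by
    intro a b hba
    rcases hba.lt_or_eq with h1 | h1
    · exact Or.inr ⟨b, h1, rfl⟩
    · exact Or.inl (by rw [h1])
  refine ⟨hinj, fun a => (hN a).1, ?_, ?_⟩
  · rintro _ ⟨a1, rfl⟩ _ ⟨a2, rfl⟩ _ ⟨a3, rfl⟩ _ ⟨a4, rfl⟩ he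
    obtain ⟨a, ha, h1, h2, h3, h4⟩ := hmax a1 a2 a3 a4
    refine second_kind (h '' Set.Iio a) (h a) (hA0 a) (fun x hx w hw hr => hD a 0 x hx w hw hr)
      _ _ _ _ (hmem a a1 h1) (hmem a a2 h2) (hmem a a3 h3) (hmem a a4 h4) ?_ he
    rcases ha with ha | ha | ha | ha
    · exact Or.inl (by rw [ha])
    · exact Or.inr (Or.inl (by rw [ha]))
    · exact Or.inr (Or.inr (Or.inl (by rw [ha])))
    · exact Or.inr (Or.inr (Or.inr (by rw [ha])))
  · rintro _ ⟨a1, rfl⟩ _ ⟨a2, rfl⟩ _ ⟨a3, rfl⟩ _ ⟨a4, rfl⟩ he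
    obtain ⟨a, ha, h1, h2, h3, h4⟩ := hmax a1 a2 a3 a4
    refine first_kind (h '' Set.Iio a) (h a) (hA1 a) (hA2 a)
      (fun x hx w hw hr => hD a 1 x hx w hw hr) (fun x hx w hw hr => hD a 2 x hx w hw hr)
      _ _ _ _ (hmem a a1 h1) (hmem a a2 h2) (hmem a a3 h3) (hmem a a4 h4) ?_ he
    rcases ha with ha | ha | ha | ha
    · exact Or.inl (by rw [ha])
    · exact Or.inr (Or.inl (by rw [ha]))
    · exact Or.inr (Or.inr (Or.inl (by rw [ha])))
    · exact Or.inr (Or.inr (Or.inr (by rw [ha])))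

end Pool.Agent.L5helper39.AD
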