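import Pool.Agent.L5helper39.AD.Sidon

/-!
# Sidon sets of full cardinality when there is a saturated ideal
-/

set_option autoImplicit false
set_option linter.all false

open Cardinal

universe u

namespace Pool.Agent.L5helper39.AD

variable {G : Type u} [Group G]

/-- A sequence without relations of the last element is a Sidon set of both kinds. -/
theorem sidon_of_seq {T : Type u} [LinearOrder T] (h : T → G) (E : Set (Fin 3))
    (hS : ∀ a, h a ∉ h '' Set.Iio a)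
    (hA0 : ∀ a, ∀ p ∈ h '' Set.Iio a, ∀ q ∈ h '' Set.Iio a, ∀ r ∈ h '' Set.Iio a,
      h a ≠ p * q⁻¹ * r)
    (hA1 : ∀ a, ∀ p ∈ h '' Set.Iio a, ∀ q ∈ h '' Set.Iio a, ∀ r ∈ h '' Set.Iio a,
      h a ≠ p * q * r⁻¹)
    (hA2 : ∀ a, ∀ p ∈ h '' Set.Iio a, ∀ q ∈ h '' Set.Iio a, ∀ r ∈ h '' Set.Iio a,
      h a ≠ p⁻¹ * q * r)
    (hD : ∀ a, ∀ e ∈ E, ∀ x ∈ h '' Set.Iio a, ∀ w ∈ h '' Set.Iio a, rel e (h a) x w → x = w) :
    Function.Injective h ∧
    (0 ∈ E → ∀ x ∈ Set.range h, ∀ y ∈ Set.range h, ∀ z ∈ Set.range h, ∀ w ∈ Set.range h,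
      x⁻¹ * y = z⁻¹ * w → (x = z ∧ y = w) ∨ (x = y ∧ z = w) ∨ (x = w ∧ y = z)) ∧
    (1 ∈ E → 2 ∈ E → ∀ x ∈ Set.range h, ∀ y ∈ Set.range h, ∀ z ∈ Set.range h, ∀ w ∈ Set.range h,
      x * y = z * w → (x = z ∧ y = w) ∨ (x = y ∧ z = w) ∨ (x = w ∧ y = z)) := by
  have hlt : ∀ a b, a < b → h a ≠ h b := by
    intro a b hab he
    exact hS b ⟨a, hab, he⟩
  have hinj : Function.Injective h := by
    intro a b he
    rcases lt_trichotomy a b with hab | hab | hab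
    · exact absurd he (hlt a b hab)
    · exact hab
    · exact absurd he.symm (hlt b a hab)
  have hmax : ∀ a1 a2 a3 a4 : T, ∃ a : T, (a = a1 ∨ a = a2 ∨ a = a3 ∨ a = a4) ∧ a1 ≤ a ∧
      a2 ≤ a ∧ a3 ≤ a ∧ a4 ≤ a := by
    intro a1 a2 a3 a4
    refine ⟨max (max a1 a2) (max a3 a4), ?_, ?_, ?_, ?_, ?_⟩
    · rcases max_choice (max a1 a2) (max a3 a4) with h1 | h1
      · rcases max_choice a1 a2 with h2 | h2
        · exact Or.inl (h1.trans h2)
        · exact Or.inr (Or.inl (h1.trans h2))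
      · rcases max_choice a3 a4 with h2 | h2
        · exact Or.inr (Or.inr (Or.inl (h1.trans h2)))
        · exact Or.inr (Or.inr (Or.inr (h1.trans h2)))
    · exact (le_max_left _ _).trans (le_max_left _ _)
    · exact (le_max_right _ _).trans (le_max_left _ _)
    · exact (le_max_left _ _).trans (le_max_right _ _)
    · exact (le_max_right _ _).trans (le_max_right _ _)
  have hmem : ∀ a b : T, b ≤ a → h b = h a ∨ h b ∈ h '' Set.Iio a := by
    intro a b hba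
    rcases hba.lt_or_eq with h1 | h1
    · exact Or.inr ⟨b, h1, rfl⟩
    · exact Or.inl (by rw [h1])
  refine ⟨hinj, ?_, ?_⟩
  · rintro h0 _ ⟨a1, rfl⟩ _ ⟨a2, rfl⟩ _ ⟨a3, rfl⟩ _ ⟨a4, rfl⟩ he
    obtain ⟨a, ha, h1, h2, h3, h4⟩ := hmax a1 a2 a3 a4
    refine second_kind (h '' Set.Iio a) (h a) (hA0 a) (fun x hx w hw hr => hD a 0 h0 x hx w hw hr)
      _ _ _ _ (hmem a a1 h1) (hmem a a2 h2) (hmem a a3 h3) (hmem a a4 h4) ?_ he
    rcases ha with ha | ha | ha | ha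
    · exact Or.inl (by rw [ha])
    · exact Or.inr (Or.inl (by rw [ha]))
    · exact Or.inr (Or.inr (Or.inl (by rw [ha])))
    · exact Or.inr (Or.inr (Or.inr (by rw [ha])))
  · rintro h1' h2' _ ⟨a1, rfl⟩ _ ⟨a2, rfl⟩ _ ⟨a3, rfl⟩ _ ⟨a4, rfl⟩ he
    obtain ⟨a, ha, h1, h2, h3, h4⟩ := hmax a1 a2 a3 a4
    refine first_kind (h '' Set.Iio a) (h a) (hA1 a) (hA2 a)
      (fun x hx w hw hr => hD a 1 h1' x hx w hw hr) (fun x hx w hw hr => hD a 2 h2' x hx w hw hr)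
      _ _ _ _ (hmem a a1 h1) (hmem a a2 h2) (hmem a a3 h3) (hmem a a4 h4) ?_ he
    rcases ha with ha | ha | ha | ha
    · exact Or.inl (by rw [ha])
    · exact Or.inr (Or.inl (by rw [ha]))
    · exact Or.inr (Or.inr (Or.inl (by rw [ha])))
    · exact Or.inr (Or.inr (Or.inr (by rw [ha])))

theorem rel_uniq (e : Fin 3) (h x w w' : G) (h1 : rel e h x w) (h2 : rel e h x w') : w = w' := by
  fin_cases e
  · exact (show h * x⁻¹ * h = w from h1).symm.trans h2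
  · exact (show h * x * h⁻¹ = w from h1).symm.trans h2
  · have e1 : h * h = x * w := h1
    have e2 : h * h = x * w' := h2
    exact mul_left_cancel (e1.symm.trans e2)

theorem rel_uniq' (e : Fin 3) (h x x' w : G) (h1 : rel e h x w) (h2 : rel e h x' w) : x = x' := by
  fin_cases e
  · have e1 : h * x⁻¹ * h = w := h1
    have e2 : h * x'⁻¹ * h = w := h2
    exact inv_injective (mul_left_cancel (mul_right_cancel (e1.trans e2.symm)))
  · have e1 : h * x * h⁻¹ = w := h1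
    have e2 : h * x' * h⁻¹ = w := h2
    exact mul_left_cancel (mul_right_cancel (e1.trans e2.symm))
  · have e1 : h * h = x * w := h1
    have e2 : h * h = x' * w := h2
    exact mul_right_cancel (e1.symm.trans e2)

section ideal

variable {X : Type u} (F : Filter X) (y : X → G) (E : Set (Fin 3))

/-- the indices which satisfy a relation -/
def Rset (e : Fin 3) (x w : G) : Set X := {a | rel e (y a) x w}

/-- the elements with a positive relation to `x` -/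
def Nbr (x : G) : Set G := {w | ∃ e ∈ E, (Rset y e x w)ᶜ ∉ F ∨ (Rset y e w x)ᶜ ∉ F}

/-- the forbidden elements after `S` -/
def Sm (S : Set G) : Set G :=
  S ∪ ((Set.range fun p : S × S × S => (p.1 : G) * (p.2.1 : G)⁻¹ * p.2.2) ∪
  ((Set.range fun p : S × S × S => (p.1 : G) * (p.2.1 : G) * (p.2.2 : G)⁻¹) ∪
  ((Set.range fun p : S × S × S => (p.1 : G)⁻¹ * (p.2.1 : G) * (p.2.2 : G)) ∪
  ⋃ s : S, Nbr F y E s)))

/-- the requirement on the next element -/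
def NextS (S : Set G) (g : G) : Prop :=
  g ∈ Set.range y ∧ g ∉ Sm F y E S ∧
    ∀ e ∈ E, ∀ x ∈ S, ∀ w ∈ S, (Rset y e x w)ᶜ ∈ F → ¬ rel e g x w

theorem card_disj (hsat : ∀ A : Set (Set X), (∀ a ∈ A, aᶜ ∉ F) → A.PairwiseDisjoint id → #A < #X)
    (R : G → Set X) (hR : ∀ w w' : G, ∀ a, a ∈ R w → a ∈ R w' → w = w') :
    #({w | (R w)ᶜ ∉ F} : Set G) < #X := by
  have h1 : #(R '' {w | (R w)ᶜ ∉ F} : Set (Set X)) < #X := by
    apply hsat
    · rintro _ ⟨w, hw, rfl⟩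
      exact hw
    · rintro _ ⟨w, hw, rfl⟩ _ ⟨w', hw', rfl⟩ hne
      show Disjoint (R w) (R w')
      rw [Set.disjoint_left]
      intro a ha ha'
      exact hne (by rw [hR w w' a ha ha'])
  have h2 : Set.InjOn R {w | (R w)ᶜ ∉ F} := by
    intro w hw w' hw' he
    have hne : (R w).Nonempty := by
      by_contra hcon
      rw [Set.not_nonempty_iff_eq_empty] at hcon
      apply hw
      rw [hcon, Set.compl_empty]
      exact Filter.univ_mem
    obtain ⟨a, ha⟩ := hne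
    exact hR w w' a ha (he ▸ ha)
  have h3 := mk_image_eq_of_injOn_lift R _ h2
  simp only [lift_id] at h3
  rw [← h3]
  exact h1

theorem card_Nbr (hinf : ℵ₀ ≤ #X)
    (hsat : ∀ A : Set (Set X), (∀ a ∈ A, aᶜ ∉ F) → A.PairwiseDisjoint id → #A < #X) (x : G) :
    #(Nbr F y E x) < #X := by
  have h1 : ∀ e, #({w | (Rset y e x w)ᶜ ∉ F} : Set G) < #X := fun e =>
    card_disj F hsat (fun w => Rset y e x w) fun w w' a ha ha' => rel_uniq e _ _ _ _ ha ha'
  have h2 : ∀ e, #({w | (Rset y e w x)ᶜ ∉ F} : Set G) < #X := fun e =>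
    card_disj F hsat (fun w => Rset y e w x) fun w w' a ha ha' => rel_uniq' e _ _ _ _ ha ha'
  have hu : ∀ A B : Set G, #A < #X → #B < #X → #(A ∪ B : Set G) < #X := fun A B hA hB =>
    (mk_union_le A B).trans_lt (add_lt_of_lt hinf hA hB)
  have h3 : Nbr F y E x ⊆ (({w | (Rset y 0 x w)ᶜ ∉ F} ∪ {w | (Rset y 0 w x)ᶜ ∉ F}) ∪
      ({w | (Rset y 1 x w)ᶜ ∉ F} ∪ {w | (Rset y 1 w x)ᶜ ∉ F})) ∪
      ({w | (Rset y 2 x w)ᶜ ∉ F} ∪ {w | (Rset y 2 w x)ᶜ ∉ F}) := by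
    rintro w ⟨e, _, he⟩
    fin_cases e
    · exact Or.inl (Or.inl he)
    · exact Or.inl (Or.inr he)
    · exact Or.inr he
  exact (mk_le_mk_of_subset h3).trans_lt (hu _ _ (hu _ _ (hu _ _ (h1 0) (h2 0))
    (hu _ _ (h1 1) (h2 1))) (hu _ _ (h1 2) (h2 2)))

theorem exists_nextS [F.NeBot] (hy : Function.Injective y) (hreg : (#X).IsRegular)
    (hpt : ∀ a, ({a} : Set X)ᶜ ∈ F)
    (hcomp : ∀ A : Set (Set X), #A < #X → (∀ a ∈ A, a ∈ F) → ⋂₀ A ∈ F)
    (hnbr : ∀ x ∈ Set.range y, #(Nbr F y E x) < #X)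
    (S : Set G) (hSy : S ⊆ Set.range y) (hS : #S < #X) : ∃ g, NextS F y E S g := by
  have hinf := hreg.aleph0_le
  have h3 : #(S × S × S) < #X := by
    rw [mk_prod, mk_prod]
    simp only [lift_id]
    exact mul_lt_of_lt hinf hS (mul_lt_of_lt hinf hS hS)
  have hu : ∀ A B : Set G, #A < #X → #B < #X → #(A ∪ B : Set G) < #X := fun A B hA hB =>
    (mk_union_le A B).trans_lt (add_lt_of_lt hinf hA hB)
  have hSm : #(Sm F y E S) < #X := by
    unfold Sm
    refine hu _ _ hS (hu _ _ (mk_range_le.trans_lt h3) (hu _ _ (mk_range_le.trans_lt h3)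
      (hu _ _ (mk_range_le.trans_lt h3) ?_)))
    rw [card_iUnion_lt_iff_forall_of_isRegular hreg hS]
    intro s
    exact hnbr s (hSy s.2)
  -- the two families
  set B : Set (Set X) := (fun a : X => ({a} : Set X)ᶜ) '' (y ⁻¹' Sm F y E S) with hB
  set C : Set (Set X) := {c | c ∈ F ∧ ∃ p : Fin 3 × S × S, c = (Rset y p.1 p.2.1 p.2.2)ᶜ} with hC
  have hBc : #B < #X := by
    refine mk_image_le.trans_lt ?_
    have := mk_preimage_of_injective y (Sm F y E S) hy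
    exact this.trans_lt hSm
  have hCc : #C < #X := by
    have h1 : C ⊆ Set.range fun p : Fin 3 × S × S => (Rset y p.1 (p.2.1 : G) (p.2.2 : G))ᶜ := by
      rintro c ⟨_, p, rfl⟩
      exact ⟨p, rfl⟩
    refine ((mk_le_mk_of_subset h1).trans mk_range_le).trans_lt ?_
    rw [mk_prod, mk_prod]
    simp only [lift_id, lift_uzero]
    refine mul_lt_of_lt hinf ?_ (mul_lt_of_lt hinf hS hS)
    simp only [mk_fin, lift_natCast]
    exact (natCast_lt_aleph0).trans_le hinf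
  have hmem : ⋂₀ (B ∪ C) ∈ F := by
    apply hcomp
    · exact (mk_union_le B C).trans_lt (add_lt_of_lt hinf hBc hCc)
    · rintro a (⟨b, _, rfl⟩ | ha)
      · exact hpt b
      · exact ha.1
  obtain ⟨a, ha⟩ := F.nonempty_of_mem hmem
  refine ⟨y a, ⟨a, rfl⟩, ?_, ?_⟩
  · intro h
    have := ha _ (Or.inl ⟨a, h, rfl⟩)
    exact this rfl
  · intro e _ x hx w hw hF hr
    have := ha _ (Or.inr ⟨hF, (e, ⟨x, hx⟩, ⟨w, hw⟩), rfl⟩)
    exact this hr

open Classical in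
/-- one step of the recursion -/
noncomputable def pickS (S : Set G) : G := if h : ∃ g, NextS F y E S g then h.choose else 1

theorem pickS_spec (S : Set G) (h : ∃ g, NextS F y E S g) : NextS F y E S (pickS F y E S) := by
  rw [pickS, dif_pos h]
  exact h.choose_spec

theorem sat_main [F.NeBot] (hy : Function.Injective y) (hreg : (#X).IsRegular)
    (hpt : ∀ a, ({a} : Set X)ᶜ ∈ F)
    (hcomp : ∀ A : Set (Set X), #A < #X → (∀ a ∈ A, a ∈ F) → ⋂₀ A ∈ F)
    (hnbr : ∀ x ∈ Set.range y, #(Nbr F y E x) < #X) :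
    ∃ H ⊆ Set.range y, #H = #X ∧
      (0 ∈ E → ∀ x ∈ H, ∀ y ∈ H, ∀ z ∈ H, ∀ w ∈ H,
        x⁻¹ * y = z⁻¹ * w → (x = z ∧ y = w) ∨ (x = y ∧ z = w) ∨ (x = w ∧ y = z)) ∧
      (1 ∈ E → 2 ∈ E → ∀ x ∈ H, ∀ y ∈ H, ∀ z ∈ H, ∀ w ∈ H,
        x * y = z * w → (x = z ∧ y = w) ∨ (x = y ∧ z = w) ∨ (x = w ∧ y = z)) := by
  let T : Type u := (#X).ord.ToType
  have hT : #T = #X := mk_ord_toType _
  have hIio : ∀ a : T, #(Set.Iio a) < #X := fun a => mk_Iio_toType_ord_lt a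
  let Φ : (a : T) → ((b : T) → b < a → G) → G := fun a prev =>
    pickS F y E {g | ∃ b, ∃ hb : b < a, prev b hb = g}
  let h : T → G := WellFounded.fix (wellFounded_lt (α := T)) Φ
  have hh : ∀ a, h a = pickS F y E (h '' Set.Iio a) := by
    intro a
    have h1 : h a = Φ a fun b _ => h b := WellFounded.fix_eq _ _ _
    rw [h1]
    simp only [Φ]
    congr 1
    ext g
    constructor
    · rintro ⟨b, hb, rfl⟩
      exact ⟨b, hb, rfl⟩
    · rintro ⟨b, hb, rfl⟩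
      exact ⟨b, hb, rfl⟩
  have hN : ∀ a, NextS F y E (h '' Set.Iio a) (h a) := by
    intro a
    induction a using WellFoundedLT.induction with
    | ind a ih =>
      rw [hh a]
      apply pickS_spec
      refine exists_nextS F y E hy hreg hpt hcomp hnbr _ ?_ (mk_image_le.trans_lt (hIio a))
      rintro _ ⟨b, hb, rfl⟩
      exact (ih b hb).1
  obtain ⟨h1, h2, h3⟩ := sidon_of_seq h E (fun a hm => (hN a).2.1 (Or.inl hm))
    (fun a p hp q hq r hr he =>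
      (hN a).2.1 (Or.inr (Or.inl ⟨(⟨p, hp⟩, ⟨q, hq⟩, ⟨r, hr⟩), he.symm⟩)))
    (fun a p hp q hq r hr he =>
      (hN a).2.1 (Or.inr (Or.inr (Or.inl ⟨(⟨p, hp⟩, ⟨q, hq⟩, ⟨r, hr⟩), he.symm⟩))))
    (fun a p hp q hq r hr he =>
      (hN a).2.1 (Or.inr (Or.inr (Or.inr (Or.inl ⟨(⟨p, hp⟩, ⟨q, hq⟩, ⟨r, hr⟩), he.symm⟩)))))
    (by
      intro a e hE x hx w hw hr
      by_contra hne
      obtain ⟨b, hb, rfl⟩ := hx
      obtain ⟨d, hd, rfl⟩ := hw
      refine (hN a).2.2 e hE _ ⟨b, hb, rfl⟩ _ ⟨d, hd, rfl⟩ ?_ hr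
      by_contra hcon
      rcases lt_trichotomy b d with hbd | hbd | hbd
      · apply (hN d).2.1
        refine Or.inr (Or.inr (Or.inr (Or.inr ?_)))
        rw [Set.mem_iUnion]
        exact ⟨⟨h b, b, hbd, rfl⟩, e, hE, Or.inl hcon⟩
      · exact hne (by rw [hbd])
      · apply (hN b).2.1
        refine Or.inr (Or.inr (Or.inr (Or.inr ?_)))
        rw [Set.mem_iUnion]
        exact ⟨⟨h d, d, hbd, rfl⟩, e, hE, Or.inr hcon⟩)
  refine ⟨Set.range h, ?_, ?_, h2, h3⟩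
  · rintro _ ⟨a, rfl⟩
    exact (hN a).1
  · rw [mk_range_eq h h1, hT]

end ideal

end Pool.Agent.L5helper39.AD
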