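import Mathlib

/-!
# Sidon subsets of full cardinality at singular strong limit cardinals
-/

set_option autoImplicit false
set_option linter.all false

open Cardinal

universe u

namespace Pool.Agent.L5helper39.AD

variable {G : Type u} [Group G]

/-- the relations between a new element `h` and two old ones -/
def rel : Fin 3 → G → G → G → Prop
  | 0, h, x, w => h * x⁻¹ * h = w
  | 1, h, x, w => h * x * h⁻¹ = w
  | 2, h, x, w => h * h = x * w

/-- `h` is a new element of `Y` which realises the relations `R` on `N` -/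
def Realises (Y N : Set G) (R : Set (Fin 3 × G × G)) (h : G) : Prop :=
  h ∈ Y ∧ h ∉ N ∧ ∀ e, ∀ x ∈ N, ∀ w ∈ N, (rel e h x w ↔ (e, x, w) ∈ R)

open Classical in
/-- a chosen element which realises `R` on `N` -/
noncomputable def Phi (Y N : Set G) (R : Set (Fin 3 × G × G)) : G :=
  if h : ∃ g, Realises Y N R g then h.choose else 1

theorem Phi_spec (Y N : Set G) (R : Set (Fin 3 × G × G)) (h : ∃ g, Realises Y N R g) :
    Realises Y N R (Phi Y N R) := by
  rw [Phi, dif_pos h]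
  exact h.choose_spec

/-- closed under the chosen elements over at most `μ` elements -/
def Closed (Y : Set G) (μ : Cardinal.{u}) (S : Set G) : Prop :=
  ∀ N ⊆ S, #N ≤ μ → ∀ R : Set (Fin 3 × G × G), (∀ p ∈ R, p.2.1 ∈ N ∧ p.2.2 ∈ N) → Phi Y N R ∈ S

/-- the smallest closed set -/
def M (Y : Set G) (μ : Cardinal.{u}) : Set G := ⋂₀ {S | Closed Y μ S}

theorem closed_M (Y : Set G) (μ : Cardinal.{u}) : Closed Y μ (M Y μ) := by
  intro N hN hc R hR
  rw [M, Set.mem_sInter]
  intro S hS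
  exact hS N (hN.trans (Set.sInter_subset_of_mem hS)) hc R hR

theorem M_mono (Y : Set G) {μ ν : Cardinal.{u}} (h : μ ≤ ν) : M Y μ ⊆ M Y ν := by
  apply Set.sInter_subset_sInter
  intro S hS N hN hc R hR
  exact hS N hN (hc.trans h) R hR

theorem card_M (Y : Set G) (μ : Cardinal.{u}) (hμ : ℵ₀ ≤ μ) : #(M Y μ) ≤ 2 ^ μ := by
  classical
  obtain ⟨I, hIc⟩ : ∃ I : Type u, #I = μ := ⟨μ.out, mk_out μ⟩
  let α : Type u := Set I × Set (Fin 3 × I × I)
  let β : α → Type u := fun a => a.1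
  let step : (Σ a : α, (β a → G)) → G := fun s =>
    Phi Y (Set.range s.2) {p | ∃ i j : β s.1, (p.1, (i : I), (j : I)) ∈ s.1.2 ∧
      s.2 i = p.2.1 ∧ s.2 j = p.2.2}
  let ev : WType β → G := WType.elim G step
  have hev : ∀ (a : α) (f : β a → WType β), ev (WType.mk a f) = step ⟨a, fun i => ev (f i)⟩ :=
    fun _ _ => rfl
  have hcl : Closed Y μ (Set.range ev) := by
    intro N hN hc R hR
    rw [← hIc] at hc
    obtain ⟨e⟩ : Nonempty (N ↪ I) := (Cardinal.le_def _ _).1 hc
    let ψ : Set.range e ≃ N := (Equiv.ofInjective e e.injective).symm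
    have hψ : ∀ n : N, ψ ⟨e n, Set.mem_range_self n⟩ = n := by
      intro n
      exact (Equiv.ofInjective e e.injective).symm_apply_apply n
    choose w hw using fun n : N => hN n.2
    let t : Set (Fin 3 × I × I) := {q | ∃ x y : N, (q.1, (x : G), (y : G)) ∈ R ∧
      e x = q.2.1 ∧ e y = q.2.2}
    refine ⟨WType.mk (⟨Set.range e, t⟩ : α) (fun i => w (ψ i)), ?_⟩
    rw [hev]
    have h1 : (fun i : β (⟨Set.range e, t⟩ : α) => ev (w (ψ i))) = fun i => ((ψ i : N) : G) := by
      funext i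
      exact hw (ψ i)
    rw [h1]
    simp only [step]
    have h2 : Set.range (fun i : β (⟨Set.range e, t⟩ : α) => ((ψ i : N) : G)) = N := by
      ext g
      constructor
      · rintro ⟨i, rfl⟩
        exact (ψ i).2
      · intro hg
        exact ⟨ψ.symm ⟨g, hg⟩, by
          show ((ψ (ψ.symm ⟨g, hg⟩) : N) : G) = g
          rw [Equiv.apply_symm_apply]⟩
    have h3 : {p : Fin 3 × G × G | ∃ i j : β (⟨Set.range e, t⟩ : α), (p.1, (i : I), (j : I)) ∈ t ∧
        ((ψ i : N) : G) = p.2.1 ∧ ((ψ j : N) : G) = p.2.2} = R := by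
      ext p
      constructor
      · rintro ⟨i, j, ⟨x, y, hxy, hx, hy⟩, hi, hj⟩
        have hi' : ψ i = x := by
          rw [← hψ x]
          congr 1
          exact Subtype.ext hx.symm
        have hj' : ψ j = y := by
          rw [← hψ y]
          congr 1
          exact Subtype.ext hy.symm
        rw [hi'] at hi
        rw [hj'] at hj
        obtain ⟨p1, p2, p3⟩ := p
        simp only at hi hj hxy
        rw [← hi, ← hj]
        exact hxy
      · intro hp
        obtain ⟨hx, hy⟩ := hR p hp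
        refine ⟨⟨e ⟨p.2.1, hx⟩, Set.mem_range_self _⟩, ⟨e ⟨p.2.2, hy⟩, Set.mem_range_self _⟩,
          ⟨⟨p.2.1, hx⟩, ⟨p.2.2, hy⟩, hp, rfl, rfl⟩, ?_, ?_⟩
        · rw [hψ]
        · rw [hψ]
    rw [h2]
    congr 1
  have h1 : M Y μ ⊆ Set.range ev := Set.sInter_subset_of_mem hcl
  have hA : #(Fin 3 × I × I) ≤ μ := by
    rw [mk_prod, mk_prod]
    simp only [lift_id, hIc, lift_uzero]
    rw [mul_eq_self hμ]
    have : (lift.{u} #(Fin 3)) ≤ μ := by
      simp only [mk_fin, lift_natCast]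
      exact (natCast_le_aleph0).trans hμ
    exact (mul_le_mul' this le_rfl).trans (mul_eq_self hμ).le
  have hα : #α ≤ 2 ^ μ := by
    show #(Set I × Set (Fin 3 × I × I)) ≤ 2 ^ μ
    rw [mk_prod]
    simp only [lift_id, mk_set, hIc]
    calc (2 : Cardinal.{u}) ^ μ * 2 ^ #(Fin 3 × I × I) ≤ 2 ^ μ * 2 ^ μ :=
          mul_le_mul' le_rfl (power_le_power_left two_ne_zero hA)
      _ = 2 ^ μ := mul_eq_self (hμ.trans (cantor μ).le)
  have h2 : #(WType β) ≤ 2 ^ μ := by
    apply WType.cardinalMk_le_of_le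
    calc (Cardinal.sum fun a : α => ((2 : Cardinal.{u}) ^ μ) ^ #(β a))
        ≤ Cardinal.sum fun _ : α => ((2 : Cardinal.{u}) ^ μ) ^ μ := by
          apply Cardinal.sum_le_sum
          intro a
          apply power_le_power_left
          · exact (power_pos _ two_pos).ne'
          · rw [← hIc]
            exact mk_set_le a.1
      _ = #α * ((2 : Cardinal.{u}) ^ μ) ^ μ := Cardinal.sum_const' _ _
      _ ≤ 2 ^ μ * 2 ^ μ := by
          apply mul_le_mul' hα
          rw [← power_mul, mul_eq_self hμ]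
      _ = 2 ^ μ := mul_eq_self (hμ.trans (cantor μ).le)
  exact (mk_le_mk_of_subset h1).trans (mk_range_le.trans h2)

/-- the elements which are forbidden after `S` -/
def Nb {ι : Type u} (y : ι → G) (S : Set G) : Set G :=
  S ∪ ((Set.range fun p : S × S × S => (p.1 : G) * (p.2.1 : G)⁻¹ * p.2.2) ∪
  ((Set.range fun p : S × S × S => (p.1 : G) * (p.2.1 : G) * (p.2.2 : G)⁻¹) ∪
  ((Set.range fun p : S × S × S => (p.1 : G)⁻¹ * (p.2.1 : G) * (p.2.2 : G)) ∪
  ((Set.range fun p : ι × S => y p.1 * (p.2 : G)⁻¹ * y p.1) ∪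
  ((Set.range fun p : ι × S => y p.1 * (p.2 : G) * (y p.1)⁻¹) ∪
  ((Set.range fun p : ι × S => (y p.1)⁻¹ * (p.2 : G) * y p.1) ∪
  ((Set.range fun p : ι × S => (p.2 : G)⁻¹ * (y p.1 * y p.1)) ∪
  (Set.range fun p : ι × S => (y p.1 * y p.1) * (p.2 : G)⁻¹))))))))

theorem card_Nb {ι : Type u} (y : ι → G) (S : Set G) (μ : Cardinal.{u}) (hμ : ℵ₀ ≤ μ)
    (hι : #ι ≤ μ) (hS : #S ≤ μ) : #(Nb y S) ≤ μ := by
  have h3 : #(S × S × S) ≤ μ := by
    rw [mk_prod, mk_prod]
    simp only [lift_id]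
    calc #S * (#S * #S) ≤ μ * (μ * μ) := mul_le_mul' hS (mul_le_mul' hS hS)
      _ = μ := by rw [mul_eq_self hμ, mul_eq_self hμ]
  have h2 : #(ι × S) ≤ μ := by
    rw [mk_prod]
    simp only [lift_id]
    exact (mul_le_mul' hι hS).trans (mul_eq_self hμ).le
  have hu : ∀ A B : Set G, #A ≤ μ → #B ≤ μ → #(A ∪ B : Set G) ≤ μ := fun A B hA hB =>
    (mk_union_le A B).trans (add_le_of_le hμ hA hB)
  unfold Nb
  refine hu _ _ hS (hu _ _ ?_ (hu _ _ ?_ (hu _ _ ?_ (hu _ _ ?_ (hu _ _ ?_ (hu _ _ ?_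
    (hu _ _ ?_ ?_)))))))
  all_goals first
    | exact mk_range_le.trans h3
    | exact mk_range_le.trans h2

/-- the requirement on the next element -/
def Next {ι : Type u} (Y : Set G) (y : ι → G) (ys : G) (μ : Cardinal.{u}) (S : Set G) (g : G) :
    Prop :=
  g ∈ Y ∧ g ∈ M Y μ ∧ g ∉ Nb y S ∧ ∀ e, ∀ x ∈ S, ∀ w ∈ S, (rel e g x w ↔ rel e ys x w)

theorem exists_next {ι : Type u} (Y : Set G) (y : ι → G) (ys : G) (μ : Cardinal.{u}) (S : Set G)
    (hY : ys ∈ Y) (hM : ys ∉ M Y μ) (hS : S ⊆ M Y μ) (hN : #(Nb y S) ≤ μ) :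
    ∃ g, Next Y y ys μ S g := by
  set N : Set G := Nb y S ∩ M Y μ with hNdef
  set R : Set (Fin 3 × G × G) := {p | p.2.1 ∈ N ∧ p.2.2 ∈ N ∧ rel p.1 ys p.2.1 p.2.2} with hR
  have hreal : ∃ g, Realises Y N R g := by
    refine ⟨ys, hY, fun h => hM h.2, fun e x hx w hw => ?_⟩
    constructor
    · intro h
      exact ⟨hx, hw, h⟩
    · intro h
      exact h.2.2
  have h1 := Phi_spec Y N R hreal
  have h2 : Phi Y N R ∈ M Y μ :=
    closed_M Y μ N Set.inter_subset_right ((mk_le_mk_of_subset Set.inter_subset_left).trans hN) R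
      (fun p hp => ⟨hp.1, hp.2.1⟩)
  have hSN : S ⊆ N := fun s hs => ⟨Or.inl hs, hS hs⟩
  refine ⟨Phi Y N R, h1.1, h2, fun h => h1.2.1 ⟨h, h2⟩, fun e x hx w hw => ?_⟩
  rw [h1.2.2 e x (hSN hx) w (hSN hw)]
  constructor
  · intro h
    exact h.2.2
  · intro h
    exact ⟨hSN hx, hSN hw, h⟩

theorem second_kind (S : Set G) (g : G) (hA : ∀ a ∈ S, ∀ b ∈ S, ∀ c ∈ S, g ≠ a * b⁻¹ * c)
    (hD : ∀ x ∈ S, ∀ w ∈ S, g * x⁻¹ * g = w → x = w) (x y z w : G)
    (hx : x = g ∨ x ∈ S) (hy : y = g ∨ y ∈ S) (hz : z = g ∨ z ∈ S) (hw : w = g ∨ w ∈ S)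
    (hg : x = g ∨ y = g ∨ z = g ∨ w = g) (h : x⁻¹ * y = z⁻¹ * w) :
    (x = z ∧ y = w) ∨ (x = y ∧ z = w) ∨ (x = w ∧ y = z) := by
  have e1 : x = y * w⁻¹ * z := by
    have : x = y * (x⁻¹ * y)⁻¹ := by group
    rw [this, h]; group
  have e2 : y = x * z⁻¹ * w := by
    have : y = x * (x⁻¹ * y) := by group
    rw [this, h]; group
  have e3 : z = w * y⁻¹ * x := by
    have : z = w * (z⁻¹ * w)⁻¹ := by group
    rw [this, ← h]; group
  have e4 : w = z * x⁻¹ * y := by
    have : w = z * (z⁻¹ * w) := by group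
    rw [this, ← h]; group
  by_cases hxy : x = y
  · subst hxy
    rw [inv_mul_cancel] at h
    exact Or.inr (Or.inl ⟨rfl, (inv_mul_eq_one.1 h.symm)⟩)
  by_cases hxz : x = z
  · subst hxz
    exact Or.inl ⟨rfl, mul_left_cancel h⟩
  by_cases hyw : y = w
  · subst hyw
    exact absurd (inv_injective (mul_right_cancel h)) hxz
  by_cases hzw : z = w
  · subst hzw
    rw [inv_mul_cancel] at h
    exact absurd (inv_mul_eq_one.1 h) hxy
  rcases hx with hx | hx
  · -- `x = g`
    have hy' : y ∈ S := hy.resolve_left fun h' => hxy (hx.trans h'.symm)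
    have hz' : z ∈ S := hz.resolve_left fun h' => hxz (hx.trans h'.symm)
    rcases hw with hw | hw
    · right; right
      refine ⟨hx.trans hw.symm, ?_⟩
      apply (hD z hz' y hy' _).symm
      rw [e2, hw, hx]
    · exact absurd (hx ▸ e1) (hA y hy' w hw z hz')
  · rcases hy with hy | hy
    · have hw' : w ∈ S := hw.resolve_left fun h' => hyw (hy.trans h'.symm)
      rcases hz with hz | hz
      · right; right
        refine ⟨?_, hy.trans hz.symm⟩
        apply hD x hx w hw'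
        rw [e4, hy, hz]
      · exact absurd (hy ▸ e2) (hA x hx z hz w hw')
    · rcases hz with hz | hz
      · have hw' : w ∈ S := hw.resolve_left fun h' => hzw (hz.trans h'.symm)
        exact absurd (hz ▸ e3) (hA w hw' y hy x hx)
      · rcases hw with hw | hw
        · exact absurd (hw ▸ e4) (hA z hz x hx y hy)
        · rcases hg with h' | h' | h' | h'
          · exact absurd (h' ▸ e1) (hA y hy w hw z hz)
          · exact absurd (h' ▸ e2) (hA x hx z hz w hw)
          · exact absurd (h' ▸ e3) (hA w hw y hy x hx)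
          · exact absurd (h' ▸ e4) (hA z hz x hx y hy)

theorem first_kind (S : Set G) (g : G) (hA : ∀ a ∈ S, ∀ b ∈ S, ∀ c ∈ S, g ≠ a * b * c⁻¹)
    (hA' : ∀ a ∈ S, ∀ b ∈ S, ∀ c ∈ S, g ≠ a⁻¹ * b * c)
    (hD1 : ∀ x ∈ S, ∀ w ∈ S, g * x * g⁻¹ = w → x = w)
    (hD2 : ∀ x ∈ S, ∀ w ∈ S, g * g = x * w → x = w) (x y z w : G)
    (hx : x = g ∨ x ∈ S) (hy : y = g ∨ y ∈ S) (hz : z = g ∨ z ∈ S) (hw : w = g ∨ w ∈ S)
    (hg : x = g ∨ y = g ∨ z = g ∨ w = g) (h : x * y = z * w) :
    (x = z ∧ y = w) ∨ (x = y ∧ z = w) ∨ (x = w ∧ y = z) := by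
  have e1 : x = z * w * y⁻¹ := by rw [← h]; group
  have e2 : y = x⁻¹ * z * w := by rw [mul_assoc, ← h]; group
  have e3 : z = x * y * w⁻¹ := by rw [h]; group
  have e4 : w = z⁻¹ * x * y := by rw [mul_assoc, h]; group
  by_cases hxz : x = z
  · subst hxz
    exact Or.inl ⟨rfl, mul_left_cancel h⟩
  by_cases hyw : y = w
  · subst hyw
    exact absurd (mul_right_cancel h) hxz
  rcases hx with hx | hx
  · have hz' : z ∈ S := hz.resolve_left fun h' => hxz (hx.trans h'.symm)
    rcases hy with hy | hy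
    · have hw' : w ∈ S := hw.resolve_left fun h' => hyw (hy.trans h'.symm)
      right; left
      refine ⟨hx.trans hy.symm, hD2 z hz' w hw' ?_⟩
      rw [← h, hx, hy]
    · rcases hw with hw | hw
      · right; right
        refine ⟨hx.trans hw.symm, ?_⟩
        apply hD1 y hy z hz'
        rw [e3, hx, hw]
      · exact absurd (hx ▸ e1) (hA z hz' w hw y hy)
  · rcases hy with hy | hy
    · have hw' : w ∈ S := hw.resolve_left fun h' => hyw (hy.trans h'.symm)
      rcases hz with hz | hz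
      · right; right
        refine ⟨?_, hy.trans hz.symm⟩
        apply (hD1 w hw' x hx _).symm
        rw [e1, hy, hz]
      · exact absurd (hy ▸ e2) (hA' x hx z hz w hw')
    · rcases hz with hz | hz
      · rcases hw with hw | hw
        · right; left
          refine ⟨hD2 x hx y hy ?_, hz.trans hw.symm⟩
          rw [h, hz, hw]
        · exact absurd (hz ▸ e3) (hA x hx y hy w hw)
      · rcases hw with hw | hw
        · exact absurd (hw ▸ e4) (hA' z hz x hx y hy)
        · rcases hg with h' | h' | h' | h'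
          · exact absurd (h' ▸ e1) (hA z hz w hw y hy)
          · exact absurd (h' ▸ e2) (hA' x hx z hz w hw)
          · exact absurd (h' ▸ e3) (hA x hx y hy w hw)
          · exact absurd (h' ▸ e4) (hA' z hz x hx y hy)

end Pool.Agent.L5helper39.AD
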